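import Pool.Agent.Helper2.PG.Lev

/-!
Project CY (MP_b8862a_ag): Hodge structures of the type of the third cohomology of a Calabi-Yau threefold.
Definitions.
-/

open Module PF

namespace CY

attribute [local instance 100] LieRing.ofAssociativeRing

variable {V : Type*} [AddCommGroup V] [Module ℂ V] [FiniteDimensional ℂ V]

/-- `L` is an irreducible Lie algebra of endomorphisms that are skew for the alternating form `ω`; its element `y` is
diagonalisable with the eigenvalues `3, 1, -1, -3`, and `3` is simple. -/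
structure Lv (ω : LinearMap.BilinForm ℂ V) (L : LieSubalgebra ℂ (Module.End ℂ V)) (y : Module.End ℂ V) : Prop where
  nd : ω.Nondegenerate
  alt : ∀ u v, ω u v = -ω v u
  irr : ∀ W : Submodule ℂ V, (∀ x ∈ L, ∀ u ∈ W, x u ∈ W) → W = ⊥ ∨ W = ⊤
  sk : ∀ x ∈ L, ∀ u v, ω (x u) v = -ω u (x v)
  mem : y ∈ L
  poly : (y - 3) * (y - 1) * (y + 1) * (y + 3) = 0
  top : finrank ℂ (Module.End.eigenspace y 3) = 1

/-- The eigenvalues of `ad y` on `L` are `0, 2, -2`. -/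
def Sh (L : LieSubalgebra ℂ (Module.End ℂ V)) (y : Module.End ℂ V) : Prop :=
  ∀ x ∈ L, ∀ c : ℂ, y * x - x * y = c • x → x = 0 ∨ c = 0 ∨ c = 2 ∨ c = -2

/-- `L` contains all skew endomorphisms. -/
def Full (ω : LinearMap.BilinForm ℂ V) (L : LieSubalgebra ℂ (Module.End ℂ V)) : Prop :=
  ∀ x : Module.End ℂ V, (∀ u v, ω (x u) v = -ω u (x v)) → x ∈ L

/-- `V` is the tensor product of a plane and a space `W`, and `L` is `sl_2` plus the skew endomorphisms of `W`: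
`e`, `f` generate the algebra of the endomorphisms of the plane. -/
def Split (ω : LinearMap.BilinForm ℂ V) (L : LieSubalgebra ℂ (Module.End ℂ V)) : Prop :=
  ∃ e ∈ L, ∃ f ∈ L, e * e = 0 ∧ f * f = 0 ∧ e * f + f * e = 1 ∧
    (∀ x ∈ L, ∃ a b c : ℂ, (x - a • e - b • f - c • (e * f - f * e)) * e =
        e * (x - a • e - b • f - c • (e * f - f * e)) ∧
      (x - a • e - b • f - c • (e * f - f * e)) * f = f * (x - a • e - b • f - c • (e * f - f * e))) ∧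
    ∀ x : Module.End ℂ V, (∀ u v, ω (x u) v = -ω u (x v)) → x * e = e * x → x * f = f * x → x ∈ L

variable {E : Type*} [NormedAddCommGroup E] [InnerProductSpace ℝ E]

/-- The weights and the roots of level one for a simple Lie algebra with `Sh`. -/
structure Cfg (Φ X : Finset E) (ℓ : E →+ ℝ) (lam : E) : Prop where
  lev : PG.Lev Φ ℓ
  sat : Sat Φ X
  four : ∀ x ∈ X, ℓ x = 3 / 2 ∨ ℓ x = 1 / 2 ∨ ℓ x = -(1 / 2) ∨ ℓ x = -(3 / 2)
  mem : lam ∈ X
  top : ℓ lam = 3 / 2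
  uniq : ∀ x ∈ X, ℓ x = 3 / 2 → x = lam
  half : ∀ x ∈ X, ℓ x = 1 / 2 → ∃ b ∈ Φ, ℓ b = 1 ∧ x = lam - b
  sub : ∀ b ∈ Φ, ℓ b = 1 → lam - b ∈ X
  next : ∀ b ∈ Φ, ℓ b = 1 → ∃ b' ∈ Φ, ℓ b' = 1 ∧ lam - b - b' ∈ X

/-- Three long orthogonal roots of level one with the sum `2 λ`. -/
structure Tri (Φ : Finset E) (ℓ : E →+ ℝ) (lam : E) (N : ℝ) (b : Fin 3 → E) : Prop where
  pos : 0 < N
  mem : ∀ i, b i ∈ Φ
  one : ∀ i, ℓ (b i) = 1
  gram : ∀ i j, inner ℝ (b i) (b j) = if i = j then N else (0 : ℝ)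
  sum : (2 : ℝ) • lam = b 0 + b 1 + b 2
  len : ∀ c ∈ Φ, ℓ c = 1 → inner ℝ c c = N ∨ inner ℝ c c = N / 2
  pair : ∀ c ∈ Φ, ℓ c = 1 → inner ℝ lam c = N / 2

end CY
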